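import Pool.Agent.Run7.h993.T3.SubDefs

set_option autoImplicit false

namespace Run7.h909.T3

open SimpleGraph Run7.h909.TD

section

variable {V : Type}

/-- transfer of the link conditions -/
theorem st_gir {V' C D : Type} (F' : Set (ℤ → V')) (p : V' → D) (hp : Function.Injective p)
    (v : V') (R : C → C → Prop) (dec : C → D)
    (ok : C → Prop) (inj : ∀ α β, ok α → ok β → dec α = dec β → α = β)
    (h : ∀ a b, Tg F' v a b → ∃ α β, ok α ∧ ok β ∧ dec α = p a ∧ dec β = p b ∧ R α β)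
    (r3 : ∀ a b c, R a b → R b c → R c a → False)
    (r4 : ∀ a b c d, R a b → R b c → R c d → R d a → a = c ∨ b = d)
    (r5 : ∀ a b c d e, R a b → R b c → R c d → R d e → R e a → False) :
    (∀ a b c, Tg F' v a b → Tg F' v b c → Tg F' v c a → False) ∧
    (∀ a b c d, Tg F' v a b → Tg F' v b c → Tg F' v c d → Tg F' v d a → a = c ∨ b = d) ∧
    (∀ a b c d e, Tg F' v a b → Tg F' v b c → Tg F' v c d → Tg F' v d e → Tg F' v e a →
      False) := by
  refine ⟨?_, ?_, ?_⟩
  · intro a b c h1 h2 h3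
    obtain ⟨a1, b1, oa1, ob1, ea1, eb1, k1⟩ := h _ _ h1
    obtain ⟨b2, c2, ob2, oc2, eb2, ec2, k2⟩ := h _ _ h2
    obtain ⟨c3, a3, oc3, oa3, ec3, ea3, k3⟩ := h _ _ h3
    obtain rfl := inj _ _ oa1 oa3 (ea1.trans ea3.symm)
    obtain rfl := inj _ _ ob1 ob2 (eb1.trans eb2.symm)
    obtain rfl := inj _ _ oc2 oc3 (ec2.trans ec3.symm)
    exact r3 _ _ _ k1 k2 k3
  · intro a b c d h1 h2 h3 h4
    obtain ⟨a1, b1, oa1, ob1, ea1, eb1, k1⟩ := h _ _ h1
    obtain ⟨b2, c2, ob2, oc2, eb2, ec2, k2⟩ := h _ _ h2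
    obtain ⟨c3, d3, oc3, od3, ec3, ed3, k3⟩ := h _ _ h3
    obtain ⟨d4, a4, od4, oa4, ed4, ea4, k4⟩ := h _ _ h4
    obtain rfl := inj _ _ oa1 oa4 (ea1.trans ea4.symm)
    obtain rfl := inj _ _ ob1 ob2 (eb1.trans eb2.symm)
    obtain rfl := inj _ _ oc2 oc3 (ec2.trans ec3.symm)
    obtain rfl := inj _ _ od3 od4 (ed3.trans ed4.symm)
    rcases r4 _ _ _ _ k1 k2 k3 k4 with e | e
    · left
      apply hp
      rw [← ea1, ← ec2, e]
    · right
      apply hp
      rw [← eb1, ← ed3, e]
  · intro a b c d e h1 h2 h3 h4 h5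
    obtain ⟨a1, b1, oa1, ob1, ea1, eb1, k1⟩ := h _ _ h1
    obtain ⟨b2, c2, ob2, oc2, eb2, ec2, k2⟩ := h _ _ h2
    obtain ⟨c3, d3, oc3, od3, ec3, ed3, k3⟩ := h _ _ h3
    obtain ⟨d4, e4, od4, oe4, ed4, ee4, k4⟩ := h _ _ h4
    obtain ⟨e5, a5, oe5, oa5, ee5, ea5, k5⟩ := h _ _ h5
    obtain rfl := inj _ _ oa1 oa5 (ea1.trans ea5.symm)
    obtain rfl := inj _ _ ob1 ob2 (eb1.trans eb2.symm)
    obtain rfl := inj _ _ oc2 oc3 (ec2.trans ec3.symm)
    obtain rfl := inj _ _ od3 od4 (ed3.trans ed4.symm)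
    obtain rfl := inj _ _ oe4 oe5 (ee4.trans ee5.symm)
    exact r5 _ _ _ _ _ k1 k2 k3 k4 k5

/-- the link of a midpoint: `(ε, none)` the end points of the edge, `(ε, some z)` the midpoints of the
edges from the end points to `z` -/
def StR {Z : Type} (α β : Bool × Option Z) : Prop :=
  (α.1 = β.1 ∧ (α.2 = none ↔ β.2 ≠ none)) ∨ (α.1 ≠ β.1 ∧ α.2 = β.2 ∧ α.2 ≠ none)

theorem StR.col {Z : Type} {α β : Bool × Option Z} (h : StR α β) :
    (α.1 ^^ α.2.isSome) = !(β.1 ^^ β.2.isSome) := by
  obtain ⟨a, s⟩ := α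
  obtain ⟨b, t⟩ := β
  unfold StR at h
  cases a <;> cases b <;> cases s <;> cases t <;> simp_all

theorem StR.r3 {Z : Type} (a b c : Bool × Option Z) (h1 : StR a b) (h2 : StR b c)
    (h3 : StR c a) : False := by
  have k1 := h1.col
  have k2 := h2.col
  have k3 := h3.col
  rw [k2, k3] at k1
  revert k1
  generalize (a.1 ^^ a.2.isSome) = x
  cases x <;> simp

theorem StR.r5 {Z : Type} (a b c d e : Bool × Option Z) (h1 : StR a b) (h2 : StR b c)
    (h3 : StR c d) (h4 : StR d e) (h5 : StR e a) : False := by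
  have k1 := h1.col
  have k2 := h2.col
  have k3 := h3.col
  have k4 := h4.col
  have k5 := h5.col
  rw [k2, k3, k4, k5] at k1
  revert k1
  generalize (a.1 ^^ a.2.isSome) = x
  cases x <;> simp

theorem StR.r4 {Z : Type} (a b c d : Bool × Option Z) (h1 : StR a b) (h2 : StR b c)
    (h3 : StR c d) (h4 : StR d a) : a = c ∨ b = d := by
  obtain ⟨a, s⟩ := a
  obtain ⟨b, t⟩ := b
  obtain ⟨c, u⟩ := c
  obtain ⟨d, v⟩ := d
  unfold StR at *
  rcases s with _ | s <;> rcases t with _ | t <;> rcases u with _ | u <;> rcases v with _ | v <;>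
    cases a <;> cases b <;> cases c <;> cases d <;> simp_all

/-- the code -/
def stdec (x y : V) : Bool × Option V → U V
  | (ε, none) => Sum.inl (if ε then y else x)
  | (ε, some z) => Sum.inr s(if ε then y else x, z)

def stok (x y : V) (α : Bool × Option V) : Prop := ∀ z, α.2 = some z → z ≠ x ∧ z ≠ y

theorem stdec_inj {x y : V} (hxy : x ≠ y) (α β : Bool × Option V) (hα : stok x y α)
    (hβ : stok x y β) (h : stdec x y α = stdec x y β) : α = β := by
  obtain ⟨a, s⟩ := α
  obtain ⟨b, t⟩ := β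
  rcases s with _ | s <;> rcases t with _ | t
  · simp only [stdec, Sum.inl.injEq] at h
    cases a <;> cases b <;> simp_all
  · simp [stdec] at h
  · simp [stdec] at h
  · have h1 := hα s rfl
    have h2 := hβ t rfl
    simp only [stdec, Sum.inr.injEq, Sym2.eq_iff] at h
    rcases h with ⟨e1, e2⟩ | ⟨e1, e2⟩
    · cases a <;> cases b <;> simp_all
    · exfalso
      cases b <;> simp_all

/-- triangles at an old vertex -/
theorem st_old {T : SimpleGraph V} {F : Set (ℤ → V)} (hT : Tri T F) (x : V) (hx : Good T (Sum.inl x))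
    (a b : Sv T) (h : Tg (SF T F) (⟨Sum.inl x, hx⟩ : Sv T) a b) :
    ∃ y z : V, True ∧ True ∧ (Sum.inr s(x, y) : U V) = a.1 ∧ (Sum.inr s(x, z) : U V) = b.1 ∧
      Tg F x y z := by
  obtain ⟨ψ, ⟨φ, hφ, k, hk⟩, e0, e1, e2⟩ := h
  have hp := hT.per φ hφ
  rcases hk with hk | hk
  · have h0 := hk 0
    have h1 := hk 1
    have h2 := hk 2
    rw [e0] at h0
    rw [e1] at h1
    rw [e2] at h2
    rcases mod3 k with hm | hm | hm
    · rw [Cr0 φ (by omega)] at h0
      rw [Cr1 φ (by omega)] at h1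
      rw [Cr2 φ (by omega)] at h2
      have hx0 : x = φ 0 := Sum.inl.inj h0
      refine ⟨φ 1, φ 2, trivial, trivial, ?_, ?_, φ, hφ, hx0.symm, rfl, rfl⟩
      · rw [h1, hx0]
      · rw [h2, hx0, per3_eq hp (i := 2) (j := -1) (by norm_num)]
    · rw [Cr1 φ (by omega)] at h0
      cases h0
    · rw [Cr2 φ (by omega)] at h0
      cases h0
  · have h0 := hk 0
    rw [e0] at h0
    cases h0

/-- triangles at a midpoint -/
theorem st_mid {T : SimpleGraph V} {F : Set (ℤ → V)} (hT : Tri T F) (x y : V)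
    (hx : Good T (Sum.inr s(x, y)))
    (a b : Sv T) (h : Tg (SF T F) (⟨Sum.inr s(x, y), hx⟩ : Sv T) a b) :
    ∃ α β : Bool × Option V, stok x y α ∧ stok x y β ∧ stdec x y α = a.1 ∧ stdec x y β = b.1 ∧
      StR α β := by
  obtain ⟨ψ, ⟨φ, hφ, k, hk⟩, e0, e1, e2⟩ := h
  have hp := hT.per φ hφ
  have hne : ∀ i j : ℤ, ¬ (3 : ℤ) ∣ i - j → φ i ≠ φ j := fun i j hij e => hij ((hp i j).1 e)
  have h0 := hk
  rcases hk with hk | hk
  · have h0 := hk 0
    have h1 := hk 1
    have h2 := hk 2
    rw [e0] at h0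
    rw [e1] at h1
    rw [e2] at h2
    rcases mod3 k with hm | hm | hm
    · rw [Cr0 φ (by omega)] at h0
      cases h0
    · rw [Cr1 φ (by omega)] at h0
      rw [Cr2 φ (by omega)] at h1
      rw [Cr0 φ (by omega)] at h2
      have h0' : s(x, y) = s(φ 0, φ 1) := Sum.inr.inj h0
      rw [Sym2.eq_iff] at h0'
      rcases h0' with ⟨ex, ey⟩ | ⟨ex, ey⟩
      · refine ⟨(false, some (φ (-1))), (false, none), ?_, ?_, ?_, ?_, ?_⟩
        · intro z hz
          obtain rfl : φ (-1) = z := Option.some.inj hz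
          rw [ex, ey]
          exact ⟨hne _ _ (by norm_num), hne _ _ (by norm_num)⟩
        · intro z hz; cases hz
        · rw [h1, ← ex]; rfl
        · rw [h2, ← ex]; rfl
        · left; exact ⟨rfl, by simp⟩
      · refine ⟨(true, some (φ (-1))), (true, none), ?_, ?_, ?_, ?_, ?_⟩
        · intro z hz
          obtain rfl : φ (-1) = z := Option.some.inj hz
          rw [ex, ey]
          exact ⟨hne _ _ (by norm_num), hne _ _ (by norm_num)⟩
        · intro z hz; cases hz
        · rw [h1, ← ey]; rfl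
        · rw [h2, ← ey]; rfl
        · left; exact ⟨rfl, by simp⟩
    · rw [Cr2 φ (by omega)] at h0
      rw [Cr0 φ (by omega)] at h1
      rw [Cr1 φ (by omega)] at h2
      have h0' : s(x, y) = s(φ 0, φ (-1)) := Sum.inr.inj h0
      rw [Sym2.eq_iff] at h0'
      rcases h0' with ⟨ex, ey⟩ | ⟨ex, ey⟩
      · refine ⟨(false, none), (false, some (φ 1)), ?_, ?_, ?_, ?_, ?_⟩
        · intro z hz; cases hz
        · intro z hz
          obtain rfl : φ 1 = z := Option.some.inj hz
          rw [ex, ey]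
          exact ⟨hne _ _ (by norm_num), hne _ _ (by norm_num)⟩
        · rw [h1, ← ex]; rfl
        · rw [h2, ← ex]; rfl
        · left; exact ⟨rfl, by simp⟩
      · refine ⟨(true, none), (true, some (φ 1)), ?_, ?_, ?_, ?_, ?_⟩
        · intro z hz; cases hz
        · intro z hz
          obtain rfl : φ 1 = z := Option.some.inj hz
          rw [ex, ey]
          exact ⟨hne _ _ (by norm_num), hne _ _ (by norm_num)⟩
        · rw [h1, ← ey]; rfl
        · rw [h2, ← ey]; rfl
        · left; exact ⟨rfl, by simp⟩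
  · have h0 : (Sum.inr s(x, y) : U V) = Sum.inr s(φ k, φ (k + 1)) := by
      have := hk 0
      rw [e0] at this
      simpa [Md] using this
    have h1 : a.1 = Sum.inr s(φ (k + 1), φ (k + 2)) := by
      have := hk 1
      rw [e1] at this
      rw [this, Md]
      congr 3 <;> ring_nf
    have h2 : b.1 = Sum.inr s(φ (k + 2), φ k) := by
      have := hk 2
      rw [e2] at this
      rw [this, Md]
      rw [per3_eq hp (i := 2 + k + 1) (j := k) (by omega)]
      congr 3; ring_nf
    have h0' : s(x, y) = s(φ k, φ (k + 1)) := Sum.inr.inj h0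
    rw [Sym2.eq_iff] at h0'
    rcases h0' with ⟨ex, ey⟩ | ⟨ex, ey⟩
    · refine ⟨(true, some (φ (k + 2))), (false, some (φ (k + 2))), ?_, ?_, ?_, ?_, ?_⟩
      · intro z hz
        obtain rfl : φ (k + 2) = z := Option.some.inj hz
        rw [ex, ey]
        exact ⟨hne _ _ (by omega), hne _ _ (by omega)⟩
      · intro z hz
        obtain rfl : φ (k + 2) = z := Option.some.inj hz
        rw [ex, ey]
        exact ⟨hne _ _ (by omega), hne _ _ (by omega)⟩
      · rw [h1, ← ey]; rfl
      · rw [h2, ← ex, Sym2.eq_swap]; rfl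
      · right; exact ⟨by simp, rfl, by simp⟩
    · refine ⟨(false, some (φ (k + 2))), (true, some (φ (k + 2))), ?_, ?_, ?_, ?_, ?_⟩
      · intro z hz
        obtain rfl : φ (k + 2) = z := Option.some.inj hz
        rw [ex, ey]
        exact ⟨hne _ _ (by omega), hne _ _ (by omega)⟩
      · intro z hz
        obtain rfl : φ (k + 2) = z := Option.some.inj hz
        rw [ex, ey]
        exact ⟨hne _ _ (by omega), hne _ _ (by omega)⟩
      · rw [h1, ← ex]; rfl
      · rw [h2, ← ey, Sym2.eq_swap]; rfl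
      · right; exact ⟨by simp, rfl, by simp⟩

theorem st_all {T : SimpleGraph V} {F : Set (ℤ → V)} (hT : Tri T F) (v : Sv T) :
    (∀ a b c, Tg (SF T F) v a b → Tg (SF T F) v b c → Tg (SF T F) v c a → False) ∧
    (∀ a b c d, Tg (SF T F) v a b → Tg (SF T F) v b c → Tg (SF T F) v c d → Tg (SF T F) v d a →
      a = c ∨ b = d) ∧
    (∀ a b c d e, Tg (SF T F) v a b → Tg (SF T F) v b c → Tg (SF T F) v c d →
      Tg (SF T F) v d e → Tg (SF T F) v e a → False) := by
  obtain ⟨v, hv⟩ := v
  rcases v with x | p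
  · refine st_gir (SF T F) Subtype.val Subtype.val_injective _ (fun y z => Tg F x y z)
      (fun y => (Sum.inr s(x, y) : U V)) (fun _ => True) ?_ ?_ (hT.g3 x) (hT.g4 x) (hT.g5 x)
    · intro α β _ _ h
      exact Sym2.congr_right.1 (Sum.inr.inj h)
    · intro a b h
      exact st_old hT x hv a b h
  · induction p using Sym2.ind with
    | _ x y =>
      have hxy : x ≠ y := by
        have : T.Adj x y := hv
        exact this.ne
      refine st_gir (SF T F) Subtype.val Subtype.val_injective _ StR (stdec x y) (stok x y)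
        (fun α β h1 h2 h => stdec_inj hxy α β h1 h2 h) (fun a b h => st_mid hT x y hv a b h)
        StR.r3 StR.r4 StR.r5

/-- SUBTRI: the subdivision is a triangle complex -/
theorem Tri.sub {T : SimpleGraph V} {F : Set (ℤ → V)} (hT : Tri T F) :
    Tri (SG T F hT) (SF T F) where
  adj := by
    rintro ψ ⟨φ, hφ, k, hk⟩ i
    show Inc F (ψ i).1 (ψ (i + 1)).1 ∨ Inc F (ψ (i + 1)).1 (ψ i).1
    rcases hk with hk | hk
    · rw [hk i, hk (i + 1)]
      rcases mod3 (i + k) with hm | hm | hm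
      · rw [Cr0 φ hm, Cr1 φ (by omega)]
        left
        exact Sym2.mem_mk_left _ _
      · rw [Cr1 φ hm, Cr2 φ (by omega)]
        right
        refine ⟨fun i => φ (i + (-1)), hT.shift φ hφ (-1), ?_, ?_⟩
        · show s(φ 0, φ (-1)) = s(φ (0 + -1), φ (1 + -1))
          rw [Sym2.eq_swap]
          norm_num
        · show s(φ 0, φ 1) = s(φ (1 + -1), φ (2 + -1))
          norm_num
      · rw [Cr2 φ hm, Cr0 φ (by omega)]
        right
        exact Sym2.mem_mk_left _ _
    · rw [hk i, hk (i + 1)]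
      left
      refine ⟨fun j => φ (j + (i + k)), hT.shift φ hφ (i + k), ?_, ?_⟩
      · show s(φ (i + k), φ (i + k + 1)) = s(φ (0 + (i + k)), φ (1 + (i + k)))
        congr 2 <;> ring_nf
      · show s(φ (i + 1 + k), φ (i + 1 + k + 1)) = s(φ (1 + (i + k)), φ (2 + (i + k)))
        congr 2 <;> ring_nf
  per := by
    rintro ψ ⟨φ, hφ, k, hk⟩ i j
    have hp := hT.per φ hφ
    have hne : ∀ i j : ℤ, ¬ (3 : ℤ) ∣ i - j → φ i ≠ φ j := fun i j hij e => hij ((hp i j).1 e)
    have hs : ψ i = ψ j ↔ (ψ i).1 = (ψ j).1 := ⟨fun h => by rw [h], fun h => Subtype.ext h⟩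
    rw [hs]
    push_cast
    rcases hk with hk | hk
    · rw [hk i, hk j]
      constructor
      · intro h
        have h12 : (Sum.inr s(φ 0, φ 1) : U V) ≠ Sum.inr s(φ 0, φ (-1)) := by
          intro e
          exact hne 1 (-1) (by norm_num) (Sym2.congr_right.1 (Sum.inr.inj e))
        rcases mod3 (i + k) with hm | hm | hm <;> rcases mod3 (j + k) with hn | hn | hn
        · omega
        · rw [Cr0 φ hm, Cr1 φ hn] at h; cases h
        · rw [Cr0 φ hm, Cr2 φ hn] at h; cases h
        · rw [Cr1 φ hm, Cr0 φ hn] at h; cases h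
        · omega
        · rw [Cr1 φ hm, Cr2 φ hn] at h; exact absurd h h12
        · rw [Cr2 φ hm, Cr0 φ hn] at h; cases h
        · rw [Cr2 φ hm, Cr1 φ hn] at h; exact absurd h.symm h12
        · omega
      · intro h
        exact Cr_mod φ (by omega)
    · rw [hk i, hk j]
      constructor
      · intro h
        have h' : s(φ (i + k), φ (i + k + 1)) = s(φ (j + k), φ (j + k + 1)) := Sum.inr.inj h
        rw [Sym2.eq_iff] at h'
        rcases h' with ⟨e, -⟩ | ⟨e, e'⟩
        · have := (hp _ _).1 e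
          push_cast at this
          omega
        · have h1 := (hp _ _).1 e
          have h2 := (hp _ _).1 e'
          push_cast at h1 h2
          omega
      · intro h
        exact Md_mod hp (by omega)
  shift := by
    rintro ψ ⟨φ, hφ, k, hk⟩ l
    refine ⟨φ, hφ, l + k, ?_⟩
    rcases hk with hk | hk
    · left
      intro i
      rw [hk (i + l), add_assoc]
    · right
      intro i
      rw [hk (i + l), add_assoc]
  refl := by
    rintro ψ ⟨φ, hφ, k, hk⟩
    rcases hk with hk | hk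
    · refine ⟨fun i => φ (-i), hT.refl φ hφ, -k, Or.inl fun i => ?_⟩
      rw [hk (-i), ← Cr_neg φ]
      congr 1
      ring
    · refine ⟨fun i => φ (-i), hT.refl φ hφ, -k - 1, Or.inr fun i => ?_⟩
      rw [hk (-i)]
      have h := Md_neg φ (i - k)
      rw [show -i + k = -(i - k) by ring, h]
      congr 1
      ring
  g3 := fun v => (st_all hT v).1
  g4 := fun v => (st_all hT v).2.1
  g5 := fun v => (st_all hT v).2.2

end

end Run7.h909.T3
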